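import Pool.Agent.W541.DL.Stm

/-!
Project DL (MP_cd6101_pr), part CLE: the corridor value is at most the passage value.
-/

namespace Pool.Agent.W315.DL.CLE

open Pool.Agent.W541.DL

theorem main (hB : S_BDD) : S_CLE := by
  intro w n x β hw hn hβ
  have hn0 : (0 : ℝ) < n := by exact_mod_cast hn
  unfold supK blpp supK
  apply csSup_le_csSup (hB w n x (1 + x) hw)
  · refine ⟨_, fun k : ℕ => x + (k : ℝ) / n, ⟨?_, ?_, ?_, ?_⟩, rfl⟩
    · intro i j hij
      have h1 : (i : ℝ) ≤ j := by exact_mod_cast hij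
      have h2 : (i : ℝ) / n ≤ (j : ℝ) / n := div_le_div_of_nonneg_right h1 hn0.le
      simp only
      linarith
    · simp
    · simp only
      rw [div_self hn0.ne']
      ring
    · intro k _
      have h1 : x + (k : ℝ) / n - x - (k : ℝ) / n = 0 := by ring
      rw [h1, abs_zero]
      exact hβ
  · apply Set.image_mono
    rintro τ ⟨h1, h2, h3, h4⟩
    exact ⟨h1, h2, h3⟩

end Pool.Agent.W315.DL.CLE
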